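import Pool.Agent.Y83.Ex5

/-!
The strong form of the graded classification conjecture for Leavitt path algebras fails already
for automorphisms: one explicit strongly connected finite graph and one automorphism of its
pointed ordered graded Grothendieck group which is not induced by any graded automorphism of the
Leavitt path algebra.
-/

namespace Pool.Agent.Results.MP_7da47b_al.AutomorphismNotLifted

open Pool.Agent.Y83

/-- For every algebraically closed field of characteristic zero there is an automorphism `f` of
the pointed ordered `ℤ[x,x⁻¹]`-module `K_0^gr(L(S))`, for the strongly connected graph `S`, which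
is not of the form `K_0^gr(ψ)` for a graded algebra automorphism `ψ` of `L(S)`. -/
theorem result (K : Type) [Field K] [IsAlgClosed K] [CharZero K] :
    (∀ v w : graphS.V, Relation.TransGen graphS.Edge v w) ∧
    ∃ f : K0gr (LPA.grading K graphS) ≃+ K0gr (LPA.grading K graphS),
      IsPointedK0Iso f ∧ ¬ IsInduced K f :=
  ⟨graphS_connected, exists_not_induced K⟩

end Pool.Agent.Results.MP_7da47b_al.AutomorphismNotLifted
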